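import Pool.Agent.Helper80.TQ.Blk

/-!
# Fourth power tails are sharp
-/

set_option autoImplicit false

open Finset Filter

namespace Pool.Agent.Helper80.FP

open Pool.Agent.Helper38.SP (quad EX_quad sum_quad_eq select EX)
open Pool.Agent.Helper80.TQ (wt zs zs_eq wt_nonneg wt_le sum_wt sum_good energy_form)

/-- one block, with a factor `τ` -/
theorem block_tau (k : ℕ) (d τ : ℝ) (hd0 : 0 < d) (hd1 : d ≤ 2 / 5) (hkd : 8 ≤ k * d ^ 2)
    (hτ0 : 0 < τ) (hτ1 : τ ≤ 1) (hX : τ ^ 4 * (1 + d ^ 4) ^ k ≤ 1) (hk : 32 ≤ τ * √((2 : ℝ) ^ k)) :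
    ∃ B ⊆ range (2 ^ k), ((quad B).card : ℝ) ≤ 36 * 2 ^ k ∧ τ * √((2 : ℝ) ^ k) ≤ 4 * #B ∧
      ∀ b ∈ B, k * d / 2 ≤ 2 * (zs k b : ℝ) - k := by
  classical
  obtain ⟨s, hs⟩ : ∃ s, s = √((2 : ℝ) ^ k) := ⟨_, rfl⟩
  rw [← hs] at hk ⊢
  have hs2 : s ^ 2 = 2 ^ k := by rw [hs]; exact Real.sq_sqrt (by positivity)
  have hs1 : 1 ≤ s := by
    rw [hs]
    apply Real.le_sqrt_of_sq_le
    rw [one_pow]
    exact one_le_pow₀ (by norm_num)
  have hs0 : 0 < s := by linarith
  have hd1' : d ≤ 1 := by linarith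
  have hw0 := wt_nonneg hd0.le hd1' k
  obtain ⟨p, hp⟩ : ∃ p : ℕ → ℝ, p = fun a => τ * wt d k a / s := ⟨_, rfl⟩
  have h0 : ∀ a, 0 ≤ p a := fun a => by
    rw [hp]; exact div_nonneg (mul_nonneg hτ0.le (hw0 a)) hs0.le
  have h1 : ∀ a, p a ≤ 1 := by
    intro a
    rw [hp]
    simp only
    rw [div_le_one hs0]
    refine (mul_le_of_le_one_left (hw0 a) hτ1).trans ((wt_le hd0.le hd1' k a).trans ?_)
    rw [hs]
    apply Real.le_sqrt_of_sq_le
    rw [← pow_mul, mul_comm k 2, pow_mul]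
    refine pow_le_pow_left₀ (by positivity) ?_ k
    nlinarith
  obtain ⟨G, hG⟩ : ∃ G : Finset ℕ,
    G = (range (2 ^ k)).filter (fun a => k * d / 2 ≤ 2 * (zs k a : ℝ) - k) := ⟨_, rfl⟩
  have hGr : G ⊆ range (2 ^ k) := by rw [hG]; exact filter_subset _ _
  have hpsum : ∀ T : Finset ℕ, ∑ a ∈ T, p a = τ * (∑ a ∈ T, wt d k a) / s := by
    intro T
    rw [hp, ← sum_div, ← mul_sum]
  have hsum : ∑ a ∈ G, p a ≤ τ * s := by
    have h2 : ∑ a ∈ G, p a ≤ ∑ a ∈ range (2 ^ k), p a :=
      sum_le_sum_of_subset_of_nonneg hGr fun a _ _ => h0 a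
    refine h2.trans ?_
    rw [hpsum, sum_wt, ← hs2, sq, mul_div_assoc, mul_div_assoc, div_self hs0.ne', mul_one]
  have hsum' : τ * s / 2 ≤ ∑ a ∈ G, p a := by
    have h2 := sum_good hd0 hd1' k hkd
    rw [← hG, ← hs2] at h2
    rw [hpsum, le_div_iff₀ hs0]
    have h3 := mul_le_mul_of_nonneg_left h2 hτ0.le
    refine le_trans (le_of_eq ?_) h3
    ring
  -- the expected energy
  have hE : EX p G (fun S => ((quad S).card : ℝ)) ≤ 9 * 2 ^ k := by
    refine (EX_quad h0 h1 G).trans ?_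
    have h2 : ∑ q ∈ quad G, p q.1.1 * p q.1.2 * (p q.2.1 * p q.2.2) ≤ 2 ^ k := by
      have h3 : ∑ q ∈ quad G, p q.1.1 * p q.1.2 * (p q.2.1 * p q.2.2) ≤
          ∑ q ∈ quad (range (2 ^ k)), p q.1.1 * p q.1.2 * (p q.2.1 * p q.2.2) := by
        refine sum_le_sum_of_subset_of_nonneg ?_ fun q _ _ =>
          mul_nonneg (mul_nonneg (h0 _) (h0 _)) (mul_nonneg (h0 _) (h0 _))
        intro q hq
        unfold quad at hq ⊢
        simp only [mem_filter, mem_product] at hq ⊢
        exact ⟨⟨⟨hGr hq.1.1.1, hGr hq.1.1.2⟩, hGr hq.1.2.1, hGr hq.1.2.2⟩, hq.2⟩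
      refine h3.trans ?_
      rw [sum_quad_eq]
      have h4 : ∀ n ∈ range (2 * 2 ^ k), (∑ v ∈ (range (2 ^ k) ×ˢ range (2 ^ k)).filter
          (fun v => v.1 + v.2 = n), p v.1 * p v.2) ^ 2 =
          τ ^ 4 / s ^ 4 * (∑ v ∈ (range (2 ^ k) ×ˢ range (2 ^ k)).filter
          (fun v => v.1 + v.2 = n), wt d k v.1 * wt d k v.2) ^ 2 := by
        intro n _
        have h5 : ∑ v ∈ (range (2 ^ k) ×ˢ range (2 ^ k)).filter (fun v => v.1 + v.2 = n),
            p v.1 * p v.2 = τ ^ 2 / s ^ 2 *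
            ∑ v ∈ (range (2 ^ k) ×ˢ range (2 ^ k)).filter (fun v => v.1 + v.2 = n),
              wt d k v.1 * wt d k v.2 := by
          rw [mul_sum, hp]
          refine sum_congr rfl fun v _ => ?_
          simp only
          field_simp
        rw [h5, mul_pow, div_pow]
        congr 2
        · ring
        · ring
      rw [sum_congr rfl h4, ← mul_sum]
      have h5 : s ^ 4 = 2 ^ k * 2 ^ k := by
        rw [show (4 : ℕ) = 2 * 2 from rfl, pow_mul, hs2, sq]
      have h6 : (8 : ℝ) ^ k = 2 ^ k * (2 ^ k * 2 ^ k) := by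
        rw [← mul_pow, ← mul_pow]
        norm_num
      refine (mul_le_mul_of_nonneg_left (energy_form d hd0.le hd1' k) (by positivity)).trans ?_
      rw [mul_pow, h6, h5]
      have h7 : (0 : ℝ) < 2 ^ k := by positivity
      have h8 : τ ^ 4 / (2 ^ k * 2 ^ k) * (2 ^ k * (2 ^ k * 2 ^ k) * (1 + d ^ 4) ^ k) =
          2 ^ k * (τ ^ 4 * (1 + d ^ 4) ^ k) := by
        field_simp
      rw [h8]
      exact mul_le_of_le_one_right h7.le hX
    have h3 : (∑ a ∈ G, p a) ^ 2 ≤ 2 ^ k := by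
      have h4 : ∑ a ∈ G, p a ≤ s := hsum.trans (mul_le_of_le_one_left hs0.le hτ1)
      rw [← hs2]
      exact pow_le_pow_left₀ (le_trans (by positivity) hsum') h4 2
    have h4 : ∑ a ∈ G, p a ≤ 2 ^ k := by
      refine hsum.trans ?_
      rw [← hs2]
      have : τ * s ≤ 1 * s := mul_le_mul_of_nonneg_right hτ1 hs0.le
      nlinarith
    linarith
  obtain ⟨B, hBG, hQ, hB⟩ := select h0 h1 G ({()} : Finset Unit) (fun _ _ => (1 : ℂ))
    (fun _ _ => by rw [norm_one]) hE hsum (Q := 36 * 2 ^ k) (δ := τ * s / 4)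
    (by positivity) (by positivity) (by
      have e1 : 9 * (2 : ℝ) ^ k / (36 * 2 ^ k) = 1 / 4 := by
        field_simp
        norm_num
      rw [e1, card_singleton]
      have e2 : ((1 : ℕ) : ℝ) * (τ * s) / (τ * s / 4) ^ 2 = 16 / (τ * s) := by
        push_cast
        field_simp
        norm_num
      rw [e2]
      have e3 : 16 / (τ * s) ≤ 1 / 2 := by
        rw [div_le_iff₀ (by positivity)]
        linarith
      linarith)
  refine ⟨B, hBG.trans hGr, hQ, ?_, fun b hb => ?_⟩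
  · have h2 := hB () (mem_singleton_self _)
    have h3 : ∑ a ∈ B, (1 : ℂ) - ∑ a ∈ G, (p a : ℂ) * 1 = (((#B : ℝ) - ∑ a ∈ G, p a : ℝ) : ℂ) := by
      push_cast
      simp
    rw [h3, Complex.norm_real, Real.norm_eq_abs] at h2
    have h4 := (abs_le.1 h2).1
    linarith
  · have := hBG hb
    rw [hG, mem_filter] at this
    exact this.2

/-- **the fourth power tails are sharp** -/
theorem sharp : ∃ c C : ℝ, 0 < c ∧ ∀ (K : ℕ) (t : ℝ), 0 ≤ t → t ≤ (K : ℝ) ^ (1 / 4 : ℝ) / 10 →
    ∃ B ⊆ range (2 ^ K),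
      (∀ a ∈ B, (K : ℝ) / 2 + t * (K : ℝ) ^ (3 / 4 : ℝ) ≤ #{i ∈ range K | a / 2 ^ i % 2 = 0}) ∧
      c * Real.exp (-C * t ^ 4) * √((2 : ℝ) ^ K) ≤ #B ∧ ((quad B).card : ℝ) ≤ C * 2 ^ K := by
  classical
  obtain ⟨c, hc⟩ : ∃ c : ℝ, c = min (Real.exp (-64) / 4) (1 / √((2 : ℝ) ^ 10000)) := ⟨_, rfl⟩
  have hc0 : 0 < c := by
    rw [hc]
    refine lt_min (by positivity) ?_
    have : 0 < √((2 : ℝ) ^ 10000) := Real.sqrt_pos.2 (pow_pos (by norm_num) _)
    exact one_div_pos.2 this
  refine ⟨c, 64, hc0, fun K t ht0 ht => ?_⟩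
  obtain ⟨q, hq⟩ : ∃ q : ℝ, q = (K : ℝ) ^ (1 / 4 : ℝ) := ⟨_, rfl⟩
  have hK0 : (0 : ℝ) ≤ K := Nat.cast_nonneg K
  have hq0 : 0 ≤ q := by rw [hq]; exact Real.rpow_nonneg hK0 _
  have hq4 : q ^ 4 = K := by
    rw [hq, ← Real.rpow_natCast, ← Real.rpow_mul hK0]
    norm_num
  have hq3 : q ^ 3 = (K : ℝ) ^ (3 / 4 : ℝ) := by
    rw [hq, ← Real.rpow_natCast, ← Real.rpow_mul hK0]
    norm_num
  rw [← hq] at ht
  rw [← hq3]
  rcases lt_or_ge K 10000 with hK | hK
  · -- the set `{0}`
    refine ⟨{0}, ?_, fun a ha => ?_, ?_, ?_⟩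
    · rw [singleton_subset_iff, mem_range]
      positivity
    · rw [mem_singleton.1 ha]
      have h1 : #{i ∈ range K | 0 / 2 ^ i % 2 = 0} = K := by simp
      rw [h1, ← hq4]
      have h2 : t * q ^ 3 ≤ q / 10 * q ^ 3 := mul_le_mul_of_nonneg_right ht (by positivity)
      have h3 : q / 10 * q ^ 3 = q ^ 4 / 10 := by ring
      have h4 : 0 ≤ q ^ 4 := by positivity
      linarith
    · rw [card_singleton, Nat.cast_one]
      have h1 : Real.exp (-64 * t ^ 4) ≤ 1 := by
        rw [Real.exp_le_one_iff]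
        have : 0 ≤ t ^ 4 := by positivity
        linarith
      have h2 : √((2 : ℝ) ^ K) ≤ √((2 : ℝ) ^ 10000) :=
        Real.sqrt_le_sqrt (pow_le_pow_right₀ (by norm_num) hK.le)
      have h3 : 0 < √((2 : ℝ) ^ 10000) := Real.sqrt_pos.2 (pow_pos (by norm_num) _)
      have h4 : c ≤ 1 / √((2 : ℝ) ^ 10000) := by rw [hc]; exact min_le_right _ _
      calc c * Real.exp (-64 * t ^ 4) * √((2 : ℝ) ^ K)
          ≤ c * 1 * √((2 : ℝ) ^ 10000) := by
            refine mul_le_mul (mul_le_mul_of_nonneg_left h1 hc0.le) h2 (Real.sqrt_nonneg _) ?_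
            linarith
        _ ≤ 1 / √((2 : ℝ) ^ 10000) * √((2 : ℝ) ^ 10000) := by
            rw [mul_one]
            exact mul_le_mul_of_nonneg_right h4 h3.le
        _ = 1 := div_mul_cancel₀ _ h3.ne'
    · have h1 : (quad ({0} : Finset ℕ)).card ≤ 1 := by
        unfold quad
        refine (card_filter_le _ _).trans ?_
        simp
      have h2 : ((quad ({0} : Finset ℕ)).card : ℝ) ≤ 1 := by exact_mod_cast h1
      have h3 : (1 : ℝ) ≤ 2 ^ K := one_le_pow₀ (by norm_num)
      linarith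
  · -- a block
    have hq10 : 10 ≤ q := by
      by_contra hcon
      have h1 : q ^ 4 < 10 ^ 4 := pow_lt_pow_left₀ (not_le.1 hcon) hq0 (by norm_num)
      rw [hq4] at h1
      have h2 : (10000 : ℝ) ≤ K := by exact_mod_cast hK
      norm_num at h1
      linarith
    obtain ⟨t', ht'⟩ : ∃ t' : ℝ, t' = max t 1 := ⟨_, rfl⟩
    have ht1 : 1 ≤ t' := by rw [ht']; exact le_max_right _ _
    have htt : t ≤ t' := by rw [ht']; exact le_max_left _ _
    have htq : t' ≤ q / 10 := by rw [ht']; exact max_le ht (by linarith)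
    have ht4 : t' ^ 4 ≤ t ^ 4 + 1 := by
      rw [ht']
      rcases le_total t 1 with h | h
      · rw [max_eq_right h]
        have : 0 ≤ t ^ 4 := by positivity
        linarith
      · rw [max_eq_left h]
        linarith
    have hq0' : 0 < q := by linarith
    obtain ⟨B, hB1, hB2, hB3, hB4⟩ := block_tau K (4 * t' / q) (Real.exp (-64 * t' ^ 4))
      (by positivity)
      (by
        rw [div_le_iff₀ hq0']
        linarith)
      (by
        have h1 : (K : ℝ) * (4 * t' / q) ^ 2 = 16 * t' ^ 2 * q ^ 2 := by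
          rw [← hq4]
          field_simp
          ring
        rw [h1]
        have h2 : 1 ≤ t' ^ 2 := one_le_pow₀ ht1
        have h3 : 1 ≤ q ^ 2 := one_le_pow₀ (by linarith)
        nlinarith)
      (Real.exp_pos _)
      (by
        rw [Real.exp_le_one_iff]
        have : 0 ≤ t' ^ 4 := by positivity
        linarith)
      (by
        have h5 : (4 * t' / q) ^ 4 = 256 * t' ^ 4 / K := by
          rw [div_pow, hq4]
          ring
        have hKp : (0 : ℝ) < K := by rw [← hq4]; positivity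
        have h6 : 1 + 256 * t' ^ 4 / K ≤ Real.exp (256 * t' ^ 4 / K) := by
          have := Real.add_one_le_exp (256 * t' ^ 4 / K)
          linarith
        rw [h5]
        have h7 : (1 + 256 * t' ^ 4 / K) ^ K ≤ Real.exp (256 * t' ^ 4) := by
          refine (pow_le_pow_left₀ (by positivity) h6 K).trans (le_of_eq ?_)
          rw [← Real.exp_nat_mul]
          congr 1
          field_simp
        have h8 : Real.exp (-64 * t' ^ 4) ^ 4 = Real.exp (-(256 * t' ^ 4)) := by
          rw [← Real.exp_nat_mul]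
          congr 1
          push_cast
          ring
        rw [h8]
        calc Real.exp (-(256 * t' ^ 4)) * (1 + 256 * t' ^ 4 / K) ^ K
            ≤ Real.exp (-(256 * t' ^ 4)) * Real.exp (256 * t' ^ 4) :=
              mul_le_mul_of_nonneg_left h7 (Real.exp_pos _).le
          _ = 1 := by rw [← Real.exp_add, neg_add_cancel, Real.exp_zero])
      (by
        have hs : √((2 : ℝ) ^ K) = Real.exp (K * Real.log 2 / 2) := by
          rw [← Real.exp_log (by positivity : (0 : ℝ) < 2 ^ K), Real.log_pow, Real.sqrt_eq_rpow,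
            ← Real.exp_mul]
          congr 1
          ring
        rw [hs, ← Real.exp_add]
        have h1 : t' ^ 4 ≤ K / 10000 := by
          have h2 := pow_le_pow_left₀ (by linarith) htq 4
          rw [div_pow, hq4] at h2
          norm_num at h2
          linarith
        have h2 : (0.69 : ℝ) ≤ Real.log 2 := by
          have := Real.log_two_gt_d9
          linarith
        have h3 : (10000 : ℝ) ≤ K := by exact_mod_cast hK
        have h4 : (5 : ℝ) ≤ -64 * t' ^ 4 + K * Real.log 2 / 2 := by nlinarith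
        have h5 : (32 : ℝ) ≤ Real.exp 5 := by
          have h6 : (2 : ℝ) ≤ Real.exp 1 := by
            have := Real.add_one_le_exp (1 : ℝ)
            linarith
          have h7 : Real.exp 5 = Real.exp 1 ^ 5 := by
            rw [← Real.exp_nat_mul]
            norm_num
          rw [h7]
          have := pow_le_pow_left₀ (by norm_num) h6 5
          norm_num at this ⊢
          exact this
        exact h5.trans (Real.exp_le_exp.2 h4))
    refine ⟨B, hB1, fun a ha => ?_, ?_, ?_⟩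
    · have h1 := hB4 a ha
      rw [zs_eq] at h1
      have h2 : (K : ℝ) * (4 * t' / q) / 2 = 2 * (t' * q ^ 3) := by
        rw [← hq4]
        field_simp
        ring
      rw [h2] at h1
      have h3 : t * q ^ 3 ≤ t' * q ^ 3 := mul_le_mul_of_nonneg_right htt (by positivity)
      linarith
    · have h1 : Real.exp (-64) * Real.exp (-64 * t ^ 4) ≤ Real.exp (-64 * t' ^ 4) := by
        rw [← Real.exp_add, Real.exp_le_exp]
        linarith
      have h2 : c ≤ Real.exp (-64) / 4 := by rw [hc]; exact min_le_left _ _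
      have h3 : 0 ≤ √((2 : ℝ) ^ K) := Real.sqrt_nonneg _
      have h4 : c * Real.exp (-64 * t ^ 4) ≤ Real.exp (-64) / 4 * Real.exp (-64 * t ^ 4) :=
        mul_le_mul_of_nonneg_right h2 (Real.exp_pos _).le
      have h5 : c * Real.exp (-64 * t ^ 4) ≤ Real.exp (-64 * t' ^ 4) / 4 := by
        refine h4.trans ?_
        linarith
      have h6 := mul_le_mul_of_nonneg_right h5 h3
      linarith
    · refine hB2.trans ?_
      have : (0 : ℝ) < 2 ^ K := by positivity
      linarith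

end Pool.Agent.Helper80.FP
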